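import Pool.Agent.H29.RS.Defs
import Pool.Agent.H29.RT.Targets

/-!
# Orders of zeros modulo `m`, energy method with integer dilations in short intervals: targets
-/

set_option autoImplicit false

open Complex MeasureTheory Set Filter Topology

namespace Pool.Agent.H29.RS

open Pool.Agent.H25.DL Pool.Agent.H25.DP Pool.Agent.H25.MZ Pool.Agent.H23.GLH Pool.Agent.H29.RT

/-! ### The identity at clean heights -/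

/-- (KXS) expansion of the right side (dilations at least `1`). -/
def T_KXS : Prop :=
  ∀ (ι : Type) [Fintype ι] (f : ι → Fac) (Y : ℂ → ℂ) (d t₀ : ℝ) (κ : ℂ) (B η C β D : ℝ),
    (∀ l, 1 ≤ (f l).r) → 0 < β → 0 < D → D < 1 → Phase Y d t₀ → ‖κ‖ = 1 →
    (∀ t : ℝ, t₀ ≤ t →
      ‖Y (1 / 2 + t * I) - κ * cexp ((d * t * Real.log t + B * t + η * Real.log t : ℝ) * I)‖ ≤
        C / t) →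
    ∃ T₀ : ℝ, ∀ T : ℝ, T₀ ≤ T → ∀ u ∈ Icc T (2 * T), ∀ ξ : ℝ,
      ‖(∑ j ∈ mains f 1 D T, KX f Y β ξ (Real.log T) j u) -
        κ * cexp ((d * u * Real.log u + B * u + η * Real.log u : ℝ) * I) *
          BR f β D T d B η ξ u‖ ≤ T ^ (-(1 / 2) : ℝ)

/-- (GRS) the coefficients. -/
def T_GRS : Prop :=
  ∀ (ι : Type) [Fintype ι] (f : ι → Fac) (D : ℝ), ID f → 0 < D →
    bc f 1 = 1 ∧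
    (∀ T : ℝ, 1 ≤ T → ∀ k : ℕ, 1 ≤ k → (k : ℝ) ≤ T ^ D → bt f D T k = bc f k) ∧
    (∃ K : ℝ, 0 < K ∧ ∀ T : ℝ, 1 ≤ T → ∀ z ∈ TU f D T, (∀ l, 1 ≤ z l) ∧
      (nn f z : ℝ) ≤ K * T ^ D) ∧
    (∀ z : ι → ℕ, (∀ l, 1 ≤ z l) → lam f z = Real.log (nn f z)) ∧
    (∀ e : ℝ, 0 < e → ∃ C : ℝ, 0 < C ∧ ∀ N : ℕ, 1 ≤ N →
      ∑ k ∈ Finset.Icc 1 N, ‖bc f k‖ ^ 2 ≤ C * (N : ℝ) ^ e ∧
      ∀ T : ℝ, 1 ≤ T → ∑ k ∈ Finset.Icc 1 N, ‖bt f D T k‖ ^ 2 ≤ C * (N : ℝ) ^ e) ∧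
    ∀ e : ℝ, 0 < e → ∃ C : ℝ, 0 < C ∧ ∀ T : ℝ, 1 ≤ T →
      ∑ z ∈ TU f D T, ‖co f z‖ ≤ C * T ^ (D / 2 + e)

/-- (SQD) the squares of the two sides at a clean height. -/
def T_SQD : Prop :=
  ∀ (ι : Type) [Fintype ι] (f : ι → Fac) (Y : ℂ → ℂ) (d t₀ x₁ x₂ D D' : ℝ) (m : ℕ) (κ : ℂ)
    (B η C₀ : ℝ), (∀ l, 1 ≤ (f l).r) → ID f → Phase Y d t₀ → ‖κ‖ = 1 →
    (∀ t : ℝ, t₀ ≤ t →
      ‖Y (1 / 2 + t * I) - κ * cexp ((d * t * Real.log t + B * t + η * Real.log t : ℝ) * I)‖ ≤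
        C₀ / t) →
    0 < x₁ → x₁ < x₂ → x₂ < d → d - x₁ < D → D < 1 → x₂ < D' → D' < 1 → 1 ≤ m →
    ∃ β₁ : ℝ, 0 < β₁ ∧ ∀ β : ℝ, β₁ ≤ β → ∀ C : ℝ, ∃ c T₀ : ℝ, 0 < c ∧ ∀ T : ℝ, T₀ ≤ T →
      ∀ u ∈ Icc T (2 * T), (∃ ω : ℂ, ω ^ m = 1 ∧ Clean f (fun s => ω * Y s) β C T u) →
      ∀ ξ : ℝ, x₁ * Real.log T ≤ ξ → ξ ≤ x₂ * Real.log T →
        |‖AL f β D' T ξ u‖ ^ 2 - ‖BR f β D T d B η ξ u‖ ^ 2| ≤ T ^ (-c)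

/-! ### Mean squares in short windows -/

/-- (MVT) the mean value theorem with slowly varying weights, both inequalities. -/
def T_MVT : Prop :=
  ∃ C : ℝ, 0 < C ∧ ∀ (N : ℕ) (a : ℕ → ℂ) (g g' : ℕ → ℝ → ℂ) (x₀ x₁ V : ℝ), 1 ≤ N → x₀ ≤ x₁ →
    0 ≤ V → (∀ k, ∀ x ∈ Icc x₀ x₁, HasDerivAt (g k) (g' k x) x) →
    (∀ k, ContinuousOn (g' k) (Icc x₀ x₁)) → (∀ k, ∀ x ∈ Icc x₀ x₁, ‖g k x‖ ≤ 1) →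
    (∀ k, ∀ x ∈ Icc x₀ x₁, ‖g' k x‖ * (x₁ - x₀) ≤ V) →
    |(∫ x in x₀..x₁, ‖∑ k ∈ Finset.Icc 1 N, a k * g k x *
        cexp (((-(x * Real.log k) : ℝ) : ℂ) * I)‖ ^ 2) -
      ∑ k ∈ Finset.Icc 1 N, ‖a k‖ ^ 2 * ∫ x in x₀..x₁, ‖g k x‖ ^ 2| ≤
      C * (1 + V) * N * Real.log (N + 1) * ∑ k ∈ Finset.Icc 1 N, ‖a k‖ ^ 2

/-- (MSA) the mean square of the left side. -/
def T_MSA : Prop :=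
  ∀ (ι : Type) [Fintype ι] (f : ι → Fac) (β D x₁ x₂ δ κ : ℝ), ID f → 0 < β → 0 < x₁ →
    x₁ < x₂ → 0 < δ → x₂ + δ < D → D < κ → κ ≤ 1 → ∃ c T₀ : ℝ, 0 < c ∧ ∀ T : ℝ, T₀ ≤ T →
    ∀ H V : ℝ, T ≤ H → T ^ κ / 4 ≤ V → H + V ≤ 2 * T →
      (V * (Real.sqrt (2 * Real.pi) / β) * (E2 f (T ^ (x₂ - δ)) - E2 f (T ^ (x₁ + δ))) -
          V * T ^ (-c) ≤
        ∫ ξ in (x₁ * Real.log T)..(x₂ * Real.log T), ∫ u in H..(H + V),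
          ‖AL f β D T ξ u‖ ^ 2) ∧
      (∫ ξ in (x₁ * Real.log T)..(x₂ * Real.log T), ∫ u in H..(H + V),
          ‖AL f β D T ξ u‖ ^ 2) ≤
        V * (Real.sqrt (2 * Real.pi) / β) * (E2 f (T ^ (x₂ + δ)) - E2 f (T ^ (x₁ - δ))) +
          V * T ^ (-c)

/-- (MSB) the mean square of the right side. -/
def T_MSB : Prop :=
  ∀ (ι : Type) [Fintype ι] (f : ι → Fac) (β D d B η x₁ x₂ δ κ : ℝ), ID f → 0 < β → 0 < d →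
    0 < x₁ → x₁ < x₂ → x₂ < d → 0 < δ → d - x₁ + δ < D → D < κ → κ ≤ 1 →
    ∃ c T₀ : ℝ, 0 < c ∧ ∀ T : ℝ, T₀ ≤ T → ∀ H V : ℝ, T ≤ H → T ^ κ / 4 ≤ V → H + V ≤ 2 * T →
      (V * (Real.sqrt (2 * Real.pi) / β) *
            (E2 f (T ^ (d - x₁ - δ)) - E2 f (T ^ (d - x₂ + δ))) - V * T ^ (-c) ≤
        ∫ ξ in (x₁ * Real.log T)..(x₂ * Real.log T), ∫ u in H..(H + V),
          ‖BR f β D T d B η ξ u‖ ^ 2) ∧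
      (∫ ξ in (x₁ * Real.log T)..(x₂ * Real.log T), ∫ u in H..(H + V),
          ‖BR f β D T d B η ξ u‖ ^ 2) ≤
        V * (Real.sqrt (2 * Real.pi) / β) *
            (E2 f (T ^ (d - x₁ + δ)) - E2 f (T ^ (d - x₂ - δ))) + V * T ^ (-c)

/-- (FMA) the left side over a small set. -/
def T_FMA : Prop :=
  ∀ (ι : Type) [Fintype ι] (f : ι → Fac) (D e : ℝ), ID f → 0 < D → 0 < e →
    ∃ C : ℝ, 0 < C ∧ ∀ β : ℝ, 0 < β → ∀ T : ℝ, 1 ≤ T → ∀ ξ H V : ℝ, 1 ≤ V →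
      ∀ E : Set ℝ, MeasurableSet E → E ⊆ Icc H (H + V) →
      ∫ u in E, ‖AL f β D T ξ u‖ ^ 2 ≤
        C * T ^ e * volume.real E ^ (1 / 2 : ℝ) * (V + T ^ (2 * D)) ^ (1 / 2 : ℝ)

/-- (FMB) the right side over a small set. -/
def T_FMB : Prop :=
  ∀ (ι : Type) [Fintype ι] (f : ι → Fac) (D e : ℝ), ID f → 0 < D → 0 < e →
    ∃ C : ℝ, 0 < C ∧ ∀ β d B η : ℝ, 0 < β → ∀ T : ℝ, 1 ≤ T → ∀ ξ H V : ℝ, T ≤ H → 1 ≤ V →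
      ∀ E : Set ℝ, MeasurableSet E → E ⊆ Icc H (H + V) →
      ∫ u in E, ‖BR f β D T d B η ξ u‖ ^ 2 ≤
        C * T ^ e * volume.real E ^ (1 / 2 : ℝ) * (V + T ^ (2 * D)) ^ (1 / 2 : ℝ)

/-! ### The core -/

/-- (CSA) the core for exponents below `1`. -/
def T_CSA : Prop :=
  ∀ (ι : Type) [Fintype ι] (f : ι → Fac) (Y : ℂ → ℂ) (d t₀ α ε κ : ℝ) (m : ℕ), ID f →
    Phase Y d t₀ → 0 < d → d < 2 * κ → κ ≤ 1 → 0 < α → α < 1 → RV2 f α → 0 < ε → 1 ≤ m →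
    ∃ β₁ : ℝ, 0 < β₁ ∧ ∀ β : ℝ, β₁ ≤ β → ∀ C : ℝ, ∃ T₀ : ℝ, ∀ T : ℝ, T₀ ≤ T →
      ∀ G : Set ℝ, MeasurableSet G → G ⊆ Icc (T + T ^ κ / 4) (T + 3 * T ^ κ / 4) →
      (∀ u ∈ G, ∃ ω : ℂ, ω ^ m = 1 ∧ Clean f (fun s => ω * Y s) β C T u) →
      T ^ (min κ (4 * κ - 2 * d) - ε) ≤
        volume.real (Icc (T + T ^ κ / 4) (T + 3 * T ^ κ / 4) \ G)

/-- (CSB) the core for exponents above `1`. -/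
def T_CSB : Prop :=
  ∀ (ι : Type) [Fintype ι] (f : ι → Fac) (Y : ℂ → ℂ) (d t₀ α ε κ : ℝ) (m : ℕ), ID f →
    Phase Y d t₀ → 0 < d → d < 2 * κ → κ ≤ 1 → 1 < α → RV2 f α → 0 < ε → 1 ≤ m →
    ∃ β₁ : ℝ, 0 < β₁ ∧ ∀ β : ℝ, β₁ ≤ β → ∀ C : ℝ, ∃ T₀ : ℝ, ∀ T : ℝ, T₀ ≤ T →
      ∀ G : Set ℝ, MeasurableSet G → G ⊆ Icc (T + T ^ κ / 4) (T + 3 * T ^ κ / 4) →
      (∀ u ∈ G, ∃ ω : ℂ, ω ^ m = 1 ∧ Clean f (fun s => ω * Y s) β C T u) →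
      T ^ (min κ (2 * κ - d) - ε) ≤
        volume.real (Icc (T + T ^ κ / 4) (T + 3 * T ^ κ / 4) \ G)

/-- (FIW) many exceptional points. -/
def T_FIW : Prop :=
  ∀ (F : Fam) (m : ℕ) (α κ ε ρ : ℝ), (∀ i, ∃ a : ℕ, 1 ≤ a ∧ (F.p i).r = a) →
    (∀ j, ∃ a : ℕ, 1 ≤ a ∧ (F.q j).r = a) → 1 ≤ m → 0 < F.d → F.d < 2 * κ * m → κ ≤ 1 →
    0 < α → α ≠ 1 → RV2 (rf F m) α → 0 < ε →
    (α < 1 → ρ = min κ (4 * κ - 2 * (F.d / m))) → (1 < α → ρ = min κ (2 * κ - F.d / m)) →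
    ∃ T₀ : ℝ, ∀ T : ℝ, T₀ ≤ T → ∃ Z : Finset ℂ, T ^ (ρ - ε) ≤ Z.card ∧
      ∀ z ∈ Z, T ≤ z.im ∧ z.im ≤ T + T ^ κ ∧ ExcM F m z

/-! ### Regular variation of the energy -/

/-- (EUS) the ratio of two values of an Euler product. -/
def T_EUS : Prop :=
  ∀ (b : ℕ → ℝ) (A : ℕ) (w : ℕ → ℕ → ℝ) (a : ℕ → ℝ) (C θ : ℝ), (∀ k, 0 ≤ b k) → b 1 = 1 →
    (∀ m n : ℕ, Nat.Coprime m n → b (m * n) = b m * b n) → 0 < θ → θ < 1 →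
    (∀ p : ℕ, p.Prime → ∀ v : ℕ, 1 ≤ v → v ≤ A → 0 ≤ w v p ∧ w v p ≤ C ∧
      |b (p ^ v) / (p : ℝ) ^ v - w v p / p| ≤ C * (p : ℝ) ^ (-(3 / 2) : ℝ)) →
    (∀ p : ℕ, p.Prime → ∀ v : ℕ, A < v →
      b (p ^ v) / (p : ℝ) ^ v ≤ C * (p : ℝ) ^ (-(3 / 2) : ℝ) * θ ^ v) →
    (∀ v : ℕ, 1 ≤ v → v ≤ A → Mean (w v) (a v)) →
    (∀ σ : ℝ, 0 < σ → Summable fun k : ℕ => b k * (k : ℝ) ^ (-(1 + σ) : ℝ)) ∧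
    ∀ s : ℕ, 1 ≤ s → Tendsto (fun L : ℝ => (∑' k : ℕ, b k * (k : ℝ) ^ (-(1 + s / L) : ℝ)) /
      ∑' k : ℕ, b k * (k : ℝ) ^ (-(1 + 1 / L) : ℝ)) atTop
      (𝓝 ((s : ℝ) ^ (-(∑ v ∈ Finset.Icc 1 A, a v))))

open Classical in
/-- (ACS) multiplicativity of the coefficients and their values at prime powers. -/
def T_ACS : Prop :=
  ∀ (ι : Type) [Fintype ι] (f : ι → Fac), ID f →
    (∀ l, ∀ m n : ℕ, Nat.Coprime m n → (f l).c (m * n) = (f l).c m * (f l).c n) →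
    bc f 1 = 1 ∧ (∀ m n : ℕ, Nat.Coprime m n → bc f (m * n) = bc f m * bc f n) ∧
    ∃ (A : ℕ) (C θ : ℝ), 0 < C ∧ 0 < θ ∧ θ < 1 ∧ (∀ l, aa f l ≤ A) ∧ ∀ p : ℕ, p.Prime →
      (∀ v : ℕ, 1 ≤ v → v ≤ A → ‖bc f (p ^ v) - (((p : ℝ) ^ (-(1 / 2) : ℝ) : ℝ) : ℂ) *
        ∑ l ∈ Finset.univ.filter (fun l => aa f l = v),
          (f l).c p * (p : ℂ) ^ (-((f l).τ * I) : ℂ)‖ ≤ C / p) ∧
      ∀ v : ℕ, A < v → ‖bc f (p ^ v)‖ ^ 2 ≤ C * (p : ℝ) ^ (-(3 / 2) : ℝ) * θ ^ v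

open Classical in
/-- (RVS) the energy of a root is regularly varying. -/
def T_RVS : Prop :=
  ∀ (F : Fam) (m A : ℕ) (a : ℕ → ℝ), 1 ≤ m →
    (∀ i, ∃ n : ℕ, 1 ≤ n ∧ n ≤ A ∧ (F.p i).r = n) →
    (∀ j, ∃ n : ℕ, 1 ≤ n ∧ n ≤ A ∧ (F.q j).r = n) →
    (∀ v : ℕ, 1 ≤ v → v ≤ A →
      Mean (fun p => ‖(∑ i, (if (F.p i).r = v then (p : ℂ) ^ (-((F.p i).τ * I) : ℂ) *
            ∑ k, (F.p i).L.h k p else 0) -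
          ∑ j, (if (F.q j).r = v then (p : ℂ) ^ (-((F.q j).τ * I) : ℂ) *
            ∑ k, (F.q j).L.h k p else 0)) / m‖ ^ 2) (a v)) →
    0 < ∑ v ∈ Finset.Icc 1 A, a v → RV2 (rf F m) (∑ v ∈ Finset.Icc 1 A, a v)

/-! ### The theorems -/

/-- (GD) Dirichlet `L`-functions. -/
def T_GD : Prop :=
  ∀ (k : ℕ) (χ : Fin k → PrimChar) (a : Fin k → ℕ) (τ : Fin k → ℝ) (c : Fin k → ℤ) (m : ℕ)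
    (κ ε ρ : ℝ), (∀ i, 1 ≤ a i) → (∀ i j, χ i = χ j → a i = a j → τ i = τ j → i = j) →
    0 < ∑ i, c i * a i → ∑ i, (c i : ℝ) * a i < 2 * κ * m → κ ≤ 1 →
    ∑ i, c i ^ 2 ≠ (m : ℤ) ^ 2 → 0 < ε →
    (∑ i, c i ^ 2 < (m : ℤ) ^ 2 → ρ = min κ (4 * κ - 2 * ((∑ i, (c i : ℝ) * a i) / m))) →
    ((m : ℤ) ^ 2 < ∑ i, c i ^ 2 → ρ = min κ (2 * κ - (∑ i, (c i : ℝ) * a i) / m)) →
    ∃ T₀ : ℝ, ∀ T : ℝ, T₀ ≤ T → ∃ Z : Finset ℂ, T ^ (ρ - ε) ≤ Z.card ∧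
      ∀ z ∈ Z, T ≤ z.im ∧ z.im ≤ T + T ^ κ ∧
        ¬ ∃ j : ℕ, ∑ i, c i * (meromorphicOrderAt (χ i).L
          (1 / 2 + (a i : ℂ) * (z - 1 / 2) + τ i * I)).untop₀ = (m : ℤ) * j

/-- (GA) Artin `L`-functions. -/
def T_GA : Prop :=
  ∀ (R : ArtinRep) (Λ : ℂ → ℂ) (m : ℕ) (κ ε ρ : ℝ), Pool.Agent.H25.HK.Rat R →
    Pool.Agent.H25.HK.IsArtin R Λ → 1 ≤ R.dim → (R.dim : ℝ) < 2 * κ * m → κ ≤ 1 →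
    ip R ≠ (m : ℝ) ^ 2 → 0 < ε →
    (ip R < (m : ℝ) ^ 2 → ρ = min κ (4 * κ - 2 * ((R.dim : ℝ) / m))) →
    ((m : ℝ) ^ 2 < ip R → ρ = min κ (2 * κ - (R.dim : ℝ) / m)) →
    ∃ T₀ : ℝ, ∀ T : ℝ, T₀ ≤ T → ∃ Z : Finset ℂ, T ^ (ρ - ε) ≤ Z.card ∧
      ∀ z ∈ Z, T ≤ z.im ∧ z.im ≤ T + T ^ κ ∧
        ∀ j : ℕ, meromorphicOrderAt Λ z ≠ ((m * j : ℕ) : ℤ)

end Pool.Agent.H29.RS
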