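import Pool.Agent.H29.RS.Part
import Pool.Agent.H25.DP.AllA
import Pool.Agent.H2.DP.DI2
import Pool.Agent.H14.RS.CSA
import Pool.Agent.H14.RS.GA
import Pool.Agent.H14.RS.MSB
import Pool.Agent.H19.EX.LDC
import Pool.Agent.H36.RT.DZR
import Pool.Agent.H69.RS.ACS
import Pool.Agent.H69.RT.MNA
import Pool.Agent.H81.RS.GD
import Pool.Agent.H96.RT.LDM
import Pool.Agent.H96.RT.MND

/-!
# Energy method: assembly
-/

set_option autoImplicit false

namespace Pool.Agent.H29.RS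

open Pool.Agent.H25.DL Pool.Agent.H25.DP Pool.Agent.H25.MZ Pool.Agent.H29.RT

theorem T_MSB_proved : T_MSB := Pool.Agent.H14.RS.pf_MSB Pool.Agent.H48.RS.pf_GRS
  Pool.Agent.H68.RS.pf_MVT

theorem T_CSA_proved : T_CSA :=
  Pool.Agent.H14.RS.pf_CSA T_SQD_proved T_MSA_proved T_MSB_proved T_FMA_proved
    Pool.Agent.H48.RS.pf_GRS

theorem T_FIW_proved : T_FIW := fiw_of T_CSA_proved (csb_of T_MSB_proved)

theorem T_RVS_proved : T_RVS := rvs_of Pool.Agent.H69.RS.pf_ACS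

theorem T_MNA_proved : T_MNA :=
  Pool.Agent.H69.RT.pf_MNA (Pool.Agent.H36.RT.pf_dzr Pool.Agent.H25.HK.T_EP_proved)
    Pool.Agent.H29.HK.ai Pool.Agent.H29.HK.pe Pool.Agent.H11.HK.tr

theorem T_MND_proved : T_MND :=
  Pool.Agent.H96.RT.pf_MND (Pool.Agent.H96.RT.pf_LDM Pool.Agent.H19.EX.pf_LDC)

theorem T_GD_proved : T_GD :=
  Pool.Agent.H81.RS.pf_GD T_FIW_proved T_RVS_proved T_MND_proved Pool.Agent.H2.DP.di2

theorem T_GA_proved : T_GA :=
  Pool.Agent.H14.RS.pf_GA T_FIW_proved T_RVS_proved T_MNA_proved T_AA2_proved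

end Pool.Agent.H29.RS
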