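import Pool.Agent.H29.RT.Defs

/-!
# Orders of zeros modulo `m`, energy method with integer dilations in short intervals: definitions
-/

set_option autoImplicit false

open Complex MeasureTheory Set Filter Topology

namespace Pool.Agent.H29.RS

open Pool.Agent.H25.DL Pool.Agent.H25.DP Pool.Agent.H23.GLH

variable {ι : Type} [Fintype ι]

/-- all dilations are positive integers -/
def ID (f : ι → Fac) : Prop := ∀ l, ∃ a : ℕ, 1 ≤ a ∧ (f l).r = a

/-- the dilation as a natural number -/
noncomputable def aa (f : ι → Fac) (l : ι) : ℕ := ⌊(f l).r⌋₊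

/-- the integer whose logarithm is the frequency of a tuple -/
noncomputable def nn (f : ι → Fac) (z : ι → ℕ) : ℕ := ∏ l, z l ^ aa f l

open Classical in
/-- the coefficient at `k` (the factor `k^{-1/2}` is included) -/
noncomputable def bc (f : ι → Fac) (k : ℕ) : ℂ :=
  ∑ z ∈ (Fintype.piFinset fun _ : ι => k.divisors).filter (fun z => nn f z = k), co f z

open Classical in
/-- the part of the coefficient at `k` that comes from the main blocks -/
noncomputable def bt (f : ι → Fac) (D T : ℝ) (k : ℕ) : ℂ :=
  ∑ z ∈ (TU f D T).filter (fun z => nn f z = k), co f z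

/-- the energy -/
noncomputable def E2 (f : ι → Fac) (y : ℝ) : ℝ := ∑ k ∈ Finset.Icc 1 ⌊y⌋₊, ‖bc f k‖ ^ 2

/-- the energy is regularly varying of exponent `α` in `log y` -/
def RV2 (f : ι → Fac) (α : ℝ) : Prop :=
  ∀ x : ℝ, 0 < x → Tendsto (fun T : ℝ => E2 f (T ^ x) / E2 f T) atTop (𝓝 (x ^ α))

end Pool.Agent.H29.RS
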