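import Pool.Agent.H25.DP.AllB
import Pool.Agent.H25.MZ.All3
import Pool.Agent.H3.RS.CSB
import Pool.Agent.H3.RS.SQD
import Pool.Agent.H11.RS.FMA
import Pool.Agent.H11.RS.MSA
import Pool.Agent.H27.RS.EUS
import Pool.Agent.H31.RT.PHX
import Pool.Agent.H34.RS.FIW
import Pool.Agent.H34.RS.FMB
import Pool.Agent.H36.RT.RFM
import Pool.Agent.H42.RS.KXS
import Pool.Agent.H48.RS.GRS
import Pool.Agent.H50.RS.RVS
import Pool.Agent.H68.RS.MVT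
import Pool.Agent.H81.RT.KRV

/-!
# Energy method: partial assembly
-/

set_option autoImplicit false

namespace Pool.Agent.H29.RS

open Pool.Agent.H25.DL Pool.Agent.H25.DP Pool.Agent.H25.MZ Pool.Agent.H29.RT

theorem T_SQD_proved : T_SQD :=
  Pool.Agent.H3.RS.pf_SQD Pool.Agent.H65.DP.exx Pool.Agent.H65.DP.shx
    (Pool.Agent.H19.DP.LLX.llx Pool.Agent.H11.DL.tr) (Pool.Agent.H80.DP.dle Pool.Agent.H19.DP.GX.gx)
    (Pool.Agent.H42.RS.pf_KXS (Pool.Agent.H31.RT.pf_PHX Pool.Agent.H19.DP.GX.gx)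
      Pool.Agent.H92.DL.cn) Pool.Agent.H48.RS.pf_GRS

theorem T_MSA_proved : T_MSA := Pool.Agent.H11.RS.pf_MSA Pool.Agent.H48.RS.pf_GRS
  Pool.Agent.H68.RS.pf_MVT

theorem T_FMA_proved : T_FMA := Pool.Agent.H11.RS.pf_FMA Pool.Agent.H48.RS.pf_GRS
  Pool.Agent.H68.RS.pf_MVT

theorem T_FMB_proved : T_FMB := Pool.Agent.H34.RS.pf_FMB Pool.Agent.H48.RS.pf_GRS
  Pool.Agent.H68.RS.pf_MVT

theorem csb_of (h : T_MSB) : T_CSB :=
  Pool.Agent.H3.RS.pf_CSB T_SQD_proved T_MSA_proved h T_FMB_proved Pool.Agent.H48.RS.pf_GRS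

theorem fiw_of (h1 : T_CSA) (h2 : T_CSB) : T_FIW :=
  Pool.Agent.H34.RS.pf_FIW h1 h2
    (Pool.Agent.H77.MZ.yr Pool.Agent.H25.DL.T_PH_proved Pool.Agent.H92.DL.yn) T_CL3_proved

theorem rvs_of (h : T_ACS) : T_RVS :=
  Pool.Agent.H50.RS.pf_RVS Pool.Agent.H48.RS.pf_GRS Pool.Agent.H81.RT.pf_KRV
    Pool.Agent.H27.RS.pf_EUS h Pool.Agent.H36.RT.pf_rfm

end Pool.Agent.H29.RS
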